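import Pool.Agent.H87.QP.Targets

/-!
# Row SE1 of the board qp: near periods which are multiples of the primes of one level
-/

set_option autoImplicit false

namespace Pool.Agent.H69.QP

open Finset Pool.Agent.H18.MR Pool.Agent.H93.DE Pool.Agent.H6.N4D Pool.Agent.H93
  Pool.Agent.H93.ES Pool.Agent.H93.EB Pool.Agent.H28.NW Pool.Agent.H87.QP

theorem se1_abs {lam : ℕ → ℝ} (h : Lio lam) (n : ℕ) : |lam n| ≤ 1 := by
  rcases h.pm n with h1 | h1 <;> rw [h1] <;> simp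

theorem se1_mx_mem {lam : ℕ → ℝ} (h : Lio lam) (H T q n : ℕ) (hH : 1 ≤ H) :
    0 ≤ mx H (fun h => |rh lam T n (q * h)|) ∧ mx H (fun h => |rh lam T n (q * h)|) ≤ 1 :=
  ⟨mx_nonneg H fun _ => abs_nonneg _, mx_le hH fun _ _ _ => abs_rh_le (se1_abs h) _ _ _⟩

/-- one prime, one window -/
theorem se1_point (hD : T_DIL) {lam : ℕ → ℝ} (hl : Lio lam) {H T q : ℕ} (n : ℕ) (hH : 1 ≤ H)
    (hq : q.Prime) (hqT : q ≤ T) {δ : ℝ} (hδ : 0 < δ) :
    1 - mx H (fun h => |rh lam T n (q * h)|) ≤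
      (1 - mx H (fun h => |rh lam (T / q) (n / q) (1 * h)|)) +
        (∑ h ∈ Icc 1 H, (δ + 1 / (4 * δ) * tq lam q T h n ^ 2)) + 4 * q / T := by
  have h1 : mx H (fun h => |rh lam (T / q) (n / q) (1 * h)|) ≤
      mx H (fun h => |rh lam T n (q * h)|) +
        (∑ h ∈ Icc 1 H, (δ + 1 / (4 * δ) * tq lam q T h n ^ 2)) + 4 * q / T := by
    refine mx_le hH fun h h1 h2 => ?_
    have h3 := hD lam q T n h hl hq hqT
    have h4 := le_mx (H := H) (fun h => |rh lam T n (q * h)|) h1 h2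
    have h5 : |tq lam q T h n| ≤ δ + 1 / (4 * δ) * tq lam q T h n ^ 2 := by
      have h6 : 0 ≤ (|tq lam q T h n| - 2 * δ) ^ 2 := sq_nonneg _
      have h7 : |tq lam q T h n| ^ 2 = tq lam q T h n ^ 2 := sq_abs _
      have h8 : |tq lam q T h n| * (4 * δ) ≤ (δ + 1 / (4 * δ) * tq lam q T h n ^ 2) * (4 * δ) := by
        have h9 : (δ + 1 / (4 * δ) * tq lam q T h n ^ 2) * (4 * δ) =
            4 * δ ^ 2 + tq lam q T h n ^ 2 := by
          field_simp
        rw [h9]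
        nlinarith
      exact le_of_mul_le_mul_right h8 (by positivity)
    have h6 : δ + 1 / (4 * δ) * tq lam q T h n ^ 2 ≤
        ∑ h ∈ Icc 1 H, (δ + 1 / (4 * δ) * tq lam q T h n ^ 2) :=
      single_le_sum (f := fun h => δ + 1 / (4 * δ) * tq lam q T h n ^ 2)
        (fun i _ => by positivity) (mem_Icc.2 ⟨h1, h2⟩)
    rw [one_mul]
    linarith
  linarith

/-- one prime, logarithmic means -/
theorem se1_prime (hD : T_DIL) (hM : T_MLN) {lam : ℕ → ℝ} (hl : Lio lam) {H T q Ls : ℕ} (X : Wn)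
    (hH : 1 ≤ H) (hq : q.Prime) (hqT : q ≤ T) (hTL : T ≤ Ls) {δ : ℝ} (hδ : 0 < δ) :
    wlg X (fun n => 1 - mx H (fun h => |rh lam T n (q * h)|)) ≤
      wlg X (fun n => 1 - mx H (fun h => |rh lam Ls n h|)) + 10 * (1 + Real.log Ls) +
        2 * (T / Ls) * (1 + X.L) + 2 * (3 * hs q + 2) +
        (δ * H * (1 + X.L) + 1 / (4 * δ) * ∑ h ∈ Icc 1 H, wlg X (fun n => tq lam q T h n ^ 2)) +
        4 * (q / T) * (1 + X.L) := by
  have hq1 : 1 ≤ q := hq.one_lt.le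
  have hT1 : 1 ≤ T := hq1.trans hqT
  have hL1 : 1 ≤ Ls := hT1.trans hTL
  have hT0 : (0 : ℝ) < T := by exact_mod_cast hT1
  have hL0 : (0 : ℝ) < Ls := by exact_mod_cast hL1
  have hTq : 1 ≤ T / q := (Nat.one_le_div_iff hq1).2 hqT
  have hTqL : T / q ≤ Ls := (Nat.div_le_self _ _).trans hTL
  have hX := X.L_nonneg
  obtain ⟨φ, hφ⟩ : ∃ φ : ℕ → ℝ, φ = fun n => mx H (fun h => |rh lam (T / q) n (1 * h)|) := ⟨_, rfl⟩
  have hφ0 : ∀ n, 0 ≤ φ n ∧ φ n ≤ 1 := by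
    intro n
    rw [hφ]
    exact se1_mx_mem hl H (T / q) 1 n hH
  have h1 : wlg X (fun n => 1 - mx H (fun h => |rh lam T n (q * h)|)) ≤
      wlg X (fun n => (1 - φ (n / q)) +
        (∑ h ∈ Icc 1 H, (δ + 1 / (4 * δ) * tq lam q T h n ^ 2)) + 4 * q / T) := by
    refine wlg_mono fun n _ => ?_
    rw [hφ]
    exact se1_point hD hl n hH hq hqT hδ
  have h2 : wlg X (fun n => (1 - φ (n / q)) +
        (∑ h ∈ Icc 1 H, (δ + 1 / (4 * δ) * tq lam q T h n ^ 2)) + 4 * q / T) =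
      wlg X (fun n => 1 - φ (n / q)) + (δ * H * wlg X (fun _ => 1) +
        1 / (4 * δ) * ∑ h ∈ Icc 1 H, wlg X (fun n => tq lam q T h n ^ 2)) +
        4 * (q / T) * wlg X (fun _ => 1) := by
    rw [wlg_add X (fun n => (1 - φ (n / q)) +
        (∑ h ∈ Icc 1 H, (δ + 1 / (4 * δ) * tq lam q T h n ^ 2))) (fun _ => 4 * q / T),
      wlg_add X (fun n => 1 - φ (n / q))
        (fun n => ∑ h ∈ Icc 1 H, (δ + 1 / (4 * δ) * tq lam q T h n ^ 2)),
      wlg_const X (4 * q / T)]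
    have h3 : wlg X (fun n => ∑ h ∈ Icc 1 H, (δ + 1 / (4 * δ) * tq lam q T h n ^ 2)) =
        δ * H * wlg X (fun _ => 1) +
          1 / (4 * δ) * ∑ h ∈ Icc 1 H, wlg X (fun n => tq lam q T h n ^ 2) := by
      rw [wlg_sum X (Icc 1 H) (fun h n => δ + 1 / (4 * δ) * tq lam q T h n ^ 2)]
      have h4 : ∀ h : ℕ, wlg X (fun n => δ + 1 / (4 * δ) * tq lam q T h n ^ 2) =
          δ * wlg X (fun _ => 1) + 1 / (4 * δ) * wlg X (fun n => tq lam q T h n ^ 2) := by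
        intro h
        rw [wlg_add X (fun _ => δ) (fun n => 1 / (4 * δ) * tq lam q T h n ^ 2), wlg_const X δ,
          wlg_mul X (1 / (4 * δ)) (fun n => tq lam q T h n ^ 2)]
      rw [sum_congr rfl fun h _ => h4 h, sum_add_distrib, sum_const, Nat.card_Icc,
        Nat.add_sub_cancel, nsmul_eq_mul, ← mul_sum]
      ring
    rw [h3]
    ring
  have h3 : wlg X (fun n => 1 - φ (n / q)) ≤ wlg X (fun n => 1 - φ n) + 2 * (3 * hs q + 2) := by
    have h4 := (abs_le.1 (wlg_div X q hq1 (fun n => 1 - φ n) (c := 1) (fun n => by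
      rw [abs_le]
      constructor <;> linarith [(hφ0 n).1, (hφ0 n).2]))).2
    linarith
  have h4 : wlg X (fun n => 1 - φ n) ≤ wlg X (fun n => 1 - mx H (fun h => |rh lam Ls n h|)) +
      10 * (1 + Real.log Ls) + 2 * (T / Ls) * (1 + X.L) := by
    have h5 := hM lam H 1 Ls (T / q) X hTq hTqL (se1_abs hl)
    rw [wlg_sub, wlg_sub]
    have h6 : (fun n => mx H (fun h => |rh lam Ls n (1 * h)|)) =
        fun n => mx H (fun h => |rh lam Ls n h|) := by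
      funext n
      simp only [one_mul]
    rw [h6] at h5
    rw [← hφ] at h5
    have h7 : 2 * ((T / q : ℕ) : ℝ) / Ls * (1 + X.L) ≤ 2 * (T / Ls) * (1 + X.L) := by
      apply mul_le_mul_of_nonneg_right _ (by linarith)
      rw [mul_div_assoc]
      apply mul_le_mul_of_nonneg_left _ (by norm_num)
      apply div_le_div_of_nonneg_right _ hL0.le
      exact_mod_cast Nat.div_le_self T q
    linarith
  have h5 := wlg_one_le X
  have h6 : δ * H * wlg X (fun _ => 1) ≤ δ * H * (1 + X.L) :=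
    mul_le_mul_of_nonneg_left h5 (by positivity)
  have h7 : 4 * ((q : ℝ) / T) * wlg X (fun _ => 1) ≤ 4 * (q / T) * (1 + X.L) :=
    mul_le_mul_of_nonneg_left h5 (by positivity)
  linarith

theorem pf_SE1 (hG : T_GLV) (hD : T_DIL) (hM : T_MLN) (hB : T_QLB) (hQ : T_QSU) : T_SE1 := by
  intro H W₀ c hH hc
  obtain ⟨s₀, w₀, hs₀, hB⟩ := hB
  obtain ⟨W, hW, hQ⟩ := hQ
  have hHr : (1 : ℝ) ≤ H := by exact_mod_cast hH
  -- the constants
  obtain ⟨n₀, hn₀⟩ : ∃ n₀ : ℕ, 80 / c < (2 : ℝ) ^ n₀ := pow_unbounded_of_one_lt _ (by norm_num)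
  obtain ⟨M, hM0⟩ := exists_nat_gt (40 / c)
  have hM1 : (0 : ℝ) < M := lt_trans (by positivity) hM0
  obtain ⟨δ, hδd⟩ : ∃ δ : ℝ, δ = c / (20 * H) := ⟨_, rfl⟩
  have hδ : 0 < δ := by rw [hδd]; positivity
  obtain ⟨W₁, X₀, hG⟩ := hG H (max W₀ (max w₀ (2 * n₀))) (δ * c * s₀ / 5) (by positivity)
  obtain ⟨Ls, hLs⟩ : ∃ Ls : ℕ, Ls = 2 ^ W₁ * M := ⟨_, rfl⟩
  have hMn : 1 ≤ M := by exact_mod_cast hM1
  have hLs1 : 1 ≤ Ls := by rw [hLs]; exact Nat.mul_pos (by positivity) hMn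
  obtain ⟨K, hK⟩ : ∃ K : ℝ, K = 10 * (1 + Real.log Ls) + 2 * (3 * hs (2 ^ W₁) + 2) := ⟨_, rfl⟩
  refine ⟨Ls, W₁, max X₀ (2 * (K + c) / c), hLs1, ?_⟩
  intro X lam hX hl hnear
  obtain ⟨w, hw1, hw2, hw3⟩ := hG X lam ((le_max_left _ _).trans hX) (fun n _ => hl.pm n)
  have hX2 : 2 * (K + c) / c ≤ X.L := (le_max_right _ _).trans hX
  have hX0 := X.L_nonneg
  refine ⟨w, (le_max_left _ _).trans hw1, hw2, ?_⟩
  have hww : w₀ ≤ w := ((le_max_left _ _).trans (le_max_right _ _)).trans hw1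
  have hwn : 2 * n₀ ≤ w := ((le_max_right _ _).trans (le_max_right _ _)).trans hw1
  have hS := hB w hww
  obtain ⟨S, hSd⟩ : ∃ S : ℝ, S = ∑ q ∈ EB.QQ w, 1 / (q : ℝ) := ⟨_, rfl⟩
  rw [← hSd] at hS ⊢
  have hTL : 2 ^ w ≤ Ls := by
    rw [hLs]
    exact (Nat.pow_le_pow_right (by norm_num) hw2).trans (Nat.le_mul_of_pos_right _ hMn)
  have hLs0 : (0 : ℝ) < Ls := by exact_mod_cast hLs1
  -- the small quantities
  have e1 : 2 * (((2 ^ w : ℕ) : ℝ) / Ls) ≤ c / 20 := by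
    have h1 : (((2 ^ w : ℕ) : ℝ)) ≤ 2 ^ W₁ := by
      exact_mod_cast Nat.pow_le_pow_right (by norm_num) hw2
    have h2 : ((Ls : ℕ) : ℝ) = 2 ^ W₁ * M := by rw [hLs]; push_cast; rfl
    have h3 : ((2 ^ w : ℕ) : ℝ) / Ls ≤ 1 / M := by
      rw [div_le_div_iff₀ hLs0 hM1, h2, one_mul]
      exact mul_le_mul_of_nonneg_right h1 hM1.le
    have h4 : 1 / (M : ℝ) ≤ c / 40 := by
      rw [div_le_div_iff₀ hM1 (by norm_num)]
      rw [div_lt_iff₀ hc] at hM0
      linarith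
    linarith
  have e2 : ∀ q ∈ EB.QQ w, 4 * ((q : ℝ) / ((2 ^ w : ℕ) : ℝ)) ≤ c / 20 := by
    intro q hq
    have hq1 : q ≤ 2 ^ (w / 200) := (mem_Ioc.1 (mem_filter.1 hq).1).2
    have h1 : (2 : ℝ) ^ n₀ * q ≤ ((2 ^ w : ℕ) : ℝ) := by
      have h2 : 2 ^ n₀ * q ≤ 2 ^ w := by
        refine (Nat.mul_le_mul_left _ hq1).trans ?_
        rw [← pow_add]
        exact Nat.pow_le_pow_right (by norm_num) (by omega)
      exact_mod_cast h2
    have hT0 : (0 : ℝ) < ((2 ^ w : ℕ) : ℝ) := by positivity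
    have h3 : 80 / c * q ≤ ((2 ^ w : ℕ) : ℝ) :=
      (mul_le_mul_of_nonneg_right hn₀.le (Nat.cast_nonneg q)).trans h1
    rw [← mul_div_assoc, div_le_div_iff₀ hT0 (by norm_num)]
    rw [div_mul_eq_mul_div, div_le_iff₀ hc] at h3
    linarith
  have e3 : δ * H = c / 20 := by
    rw [hδd]
    field_simp
  have e4 : 1 / (4 * δ) * (δ * c * s₀ / 5 * X.L) = c * s₀ / 20 * X.L := by
    field_simp
    ring
  -- one prime
  have hone : ∀ q ∈ EB.QQ w, wlg X (fun n => 1 - mx H (fun h => |rh lam (2 ^ w) n (q * h)|)) ≤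
      c * X.L + K + 3 * (c / 20) * (1 + X.L) +
        1 / (4 * δ) * ∑ h ∈ Icc 1 H, wlg X (fun n => tq lam q (2 ^ w) h n ^ 2) := by
    intro q hq
    have hqm := mem_filter.1 hq
    have hq1 : q ≤ 2 ^ (w / 200) := (mem_Ioc.1 hqm.1).2
    have hqw : q ≤ 2 ^ w := hq1.trans (Nat.pow_le_pow_right (by norm_num) (Nat.div_le_self _ _))
    have h1 := se1_prime hD hM hl X hH hqm.2 hqw hTL hδ
    have h2 : hs q ≤ hs (2 ^ W₁) := hs_mono (hqw.trans (Nat.pow_le_pow_right (by norm_num) hw2))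
    have h3 := mul_le_mul_of_nonneg_right e1 (by linarith : 0 ≤ 1 + X.L)
    have h4 := mul_le_mul_of_nonneg_right (e2 q hq) (by linarith : 0 ≤ 1 + X.L)
    rw [e3] at h1
    rw [hK]
    linarith
  calc ∑ q ∈ EB.QQ w, 1 / (q : ℝ) *
        wlg X (fun n => 1 - mx H (fun h => |rh lam (2 ^ w) n (q * h)|))
      ≤ ∑ q ∈ EB.QQ w, 1 / (q : ℝ) * (c * X.L + K + 3 * (c / 20) * (1 + X.L) +
        1 / (4 * δ) * ∑ h ∈ Icc 1 H, wlg X (fun n => tq lam q (2 ^ w) h n ^ 2)) :=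
        sum_le_sum fun q hq => mul_le_mul_of_nonneg_left (hone q hq) (by positivity)
    _ = (c * X.L + K + 3 * (c / 20) * (1 + X.L)) * S +
        1 / (4 * δ) * ∑ h ∈ Icc 1 H, wlg X (fun n => ∑ q ∈ EB.QQ w, 1 / (q : ℝ) *
          tq lam q (2 ^ w) h n ^ 2) := by
        have h1 : ∀ h : ℕ, wlg X (fun n => ∑ q ∈ EB.QQ w, 1 / (q : ℝ) *
            tq lam q (2 ^ w) h n ^ 2) = ∑ q ∈ EB.QQ w, 1 / (q : ℝ) *
              wlg X (fun n => tq lam q (2 ^ w) h n ^ 2) := by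
          intro h
          rw [wlg_sum X (EB.QQ w) (fun q n => 1 / (q : ℝ) * tq lam q (2 ^ w) h n ^ 2)]
          exact sum_congr rfl fun q _ =>
            wlg_mul X (1 / (q : ℝ)) (fun n => tq lam q (2 ^ w) h n ^ 2)
        rw [sum_congr rfl fun h _ => h1 h, sum_comm, hSd, mul_sum, mul_sum, ← sum_add_distrib]
        refine sum_congr rfl fun q _ => ?_
        rw [mul_add, mul_left_comm, mul_sum]
        ring
    _ ≤ (c * X.L + K + 3 * (c / 20) * (1 + X.L)) * S + c * s₀ / 20 * X.L := by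
        rw [← e4]
        have h1 := mul_le_mul_of_nonneg_left hw3 (by positivity : 0 ≤ 1 / (4 * δ))
        linarith
    _ ≤ 2 * c * S * X.L := by
        have h1 : c * s₀ / 20 * X.L ≤ c / 20 * X.L * S := by
          have h2 := mul_le_mul_of_nonneg_left hS (by positivity : 0 ≤ c / 20 * X.L)
          linarith
        have hS0 : 0 ≤ S := hs₀.le.trans hS
        have h2 : K + c ≤ c * X.L / 2 := by
          rw [div_le_iff₀ hc] at hX2
          linarith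
        have h3 : K + 3 * (c / 20) * (1 + X.L) + c / 20 * X.L ≤ c * X.L := by
          have h4 : 0 ≤ c * X.L := mul_nonneg hc.le hX0
          linarith
        have h4 := mul_le_mul_of_nonneg_right h3 hS0
        linarith

end Pool.Agent.H69.QP
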